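import Pool.Agent.Work.MP_0f8365_gt.Proof

set_option autoImplicit false

open Pool.Agent.Work.MP_0f8365_gt

namespace Pool.Agent.Results.MP_0f8365_gt.SeparableFactor

universe u v

/-- **Affirmative answer to Arhangel'skii's question (Q1), in a stronger form.**  If `X` is a
Grothendieck space and `Y` is a separable space (in particular, if `Y` is countable), both
Tychonoff, then `X × Y` is a Grothendieck space. -/
theorem result {X : Type u} {Y : Type v} [TopologicalSpace X] [T35Space X]
    [TopologicalSpace Y] [T35Space Y] [TopologicalSpace.SeparableSpace Y]
    (hX : IsGrothendieckSpace X) : IsGrothendieckSpace (X × Y) :=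
  prod_isGrothendieckSpace hX

end Pool.Agent.Results.MP_0f8365_gt.SeparableFactor
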